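import Pool.Agent.helper80.EN.Spec
import Pool.Agent.helper14.FA.MaxCond

set_option autoImplicit false

namespace Pool.Agent.helper80.EN

open Subgroup
open scoped commutatorElement

universe u

section core

variable {G : Type u} [Group G]

theorem NB_icom_map {H : Type u} [Group H] (f : G →* H) (x y : G) (n : ℕ) :
    f (icom x y n) = icom (f x) (f y) n := by
  induction n with
  | zero => rfl
  | succ n ih =>
    simp only [icom, com]
    rw [map_mul, map_mul, map_mul, map_inv, map_inv, ih]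

theorem NB_icom_conj (x y g : G) (n : ℕ) :
    icom (g * x * g⁻¹) (g * y * g⁻¹) n = g * icom x y n * g⁻¹ :=
  (NB_icom_map (MulAut.conj g).toMonoidHom x y n).symm

theorem NB_icom_zero_add (x y : G) (m n : ℕ) : icom x y (m + n) = icom (icom x y m) y n := by
  induction n with
  | zero => rfl
  | succ n ih =>
    change com (icom x y (m + n)) y = com (icom (icom x y m) y n) y
    rw [ih]

theorem NB_icom_one (y : G) (n : ℕ) : icom 1 y n = 1 := by
  induction n with
  | zero => rfl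
  | succ n ih =>
    change com (icom 1 y n) y = 1
    rw [ih]
    simp [com]

theorem NB_com_mul (x y a : G) : com (x * y) a = y⁻¹ * com x a * y * com y a := by
  simp only [com]
  group

/-- membership of iterated commutators -/
theorem NB_icom_mem (N : Subgroup G) (a : G) (ha : ∀ x ∈ N, a⁻¹ * x * a ∈ N) (x : G) (hx : x ∈ N)
    (n : ℕ) : icom x a n ∈ N := by
  induction n with
  | zero => exact hx
  | succ n ih =>
    have h1 : icom x a (n + 1) = (icom x a n)⁻¹ * (a⁻¹ * icom x a n * a) := by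
      change com (icom x a n) a = _
      simp only [com]
      group
    rw [h1]
    exact N.mul_mem (N.inv_mem ih) (ha _ ih)

variable (A C B : Subgroup G) (a : G)

/-- iterated commutators are multiplicative modulo `C` -/
theorem NB_icom_mul [C.Normal] (hA : ∀ x ∈ A, a⁻¹ * x * a ∈ A)
    (hAA : ∀ x ∈ A, ∀ y ∈ A, ⁅x, y⁆ ∈ C) (x y : G) (hx : x ∈ A) (hy : y ∈ A) (n : ℕ) :
    QuotientGroup.mk' C (icom (x * y) a n)
      = QuotientGroup.mk' C (icom x a n) * QuotientGroup.mk' C (icom y a n) := by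
  induction n with
  | zero =>
    change QuotientGroup.mk' C (x * y) = QuotientGroup.mk' C x * QuotientGroup.mk' C y
    rw [map_mul]
  | succ n ih =>
    have hu := NB_icom_mem A a hA x hx n
    have hv := NB_icom_mem A a hA y hy n
    have hcu := NB_icom_mem A a hA x hx (n + 1)
    have e1 : QuotientGroup.mk' C (icom (x * y) a (n + 1))
        = com (QuotientGroup.mk' C (icom (x * y) a n)) (QuotientGroup.mk' C a) := by
      change QuotientGroup.mk' C (com (icom (x * y) a n) a) = _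
      simp only [com, map_mul, map_inv]
    have e2 : com (QuotientGroup.mk' C (icom x a n) * QuotientGroup.mk' C (icom y a n))
        (QuotientGroup.mk' C a)
        = QuotientGroup.mk' C (com (icom x a n * icom y a n) a) := by
      simp only [com, map_mul, map_inv]
    rw [e1, ih, e2, NB_com_mul]
    change QuotientGroup.mk' C ((icom y a n)⁻¹ * icom x a (n + 1) * icom y a n * icom y a (n + 1))
      = _
    rw [← map_mul]
    change ((_ : G) : G ⧸ C) = ((_ : G) : G ⧸ C)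
    rw [QuotientGroup.eq]
    have h1 := hAA _ (A.inv_mem hcu) _ (A.inv_mem hv)
    have h2 := C.inv_mem h1
    have h3 : ((icom y a n)⁻¹ * icom x a (n + 1) * icom y a n * icom y a (n + 1))⁻¹ *
        (icom x a (n + 1) * icom y a (n + 1))
        = (icom y a (n + 1))⁻¹ * ((⁅(icom x a (n + 1))⁻¹, (icom y a n)⁻¹⁆)⁻¹)⁻¹⁻¹
            * ((icom y a (n + 1))⁻¹)⁻¹ := by
      simp only [commutatorElement_def]
      group
    rw [h3]
    apply Normal.conj_mem inferInstance
    simpa using h2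

/-- the subgroup of the elements congruent to some `[x, _m a]` -/
def NB_P [C.Normal] (hA : ∀ x ∈ A, a⁻¹ * x * a ∈ A)
    (hAA : ∀ x ∈ A, ∀ y ∈ A, ⁅x, y⁆ ∈ C) (m : ℕ) : Subgroup G where
  carrier := {z | ∃ x ∈ A, QuotientGroup.mk' C z = QuotientGroup.mk' C (icom x a m)}
  one_mem' := ⟨1, A.one_mem, by rw [NB_icom_one]⟩
  mul_mem' := by
    rintro z w ⟨x, hx, hz⟩ ⟨y, hy, hw⟩
    exact ⟨x * y, A.mul_mem hx hy, by rw [map_mul, hz, hw, NB_icom_mul A C a hA hAA x y hx hy]⟩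
  inv_mem' := by
    rintro z ⟨x, hx, hz⟩
    refine ⟨x⁻¹, A.inv_mem hx, ?_⟩
    have h1 := NB_icom_mul A C a hA hAA x⁻¹ x (A.inv_mem hx) hx m
    rw [inv_mul_cancel, NB_icom_one, map_one] at h1
    rw [map_inv, hz]
    exact (eq_inv_of_mul_eq_one_left h1.symm).symm

theorem NB_mem_P [C.Normal] {hA : ∀ x ∈ A, a⁻¹ * x * a ∈ A}
    {hAA : ∀ x ∈ A, ∀ y ∈ A, ⁅x, y⁆ ∈ C} {m : ℕ} {z : G} :
    z ∈ NB_P A C a hA hAA m ↔
      ∃ x ∈ A, QuotientGroup.mk' C z = QuotientGroup.mk' C (icom x a m) := Iff.rfl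

theorem NB_P_le [C.Normal] (hCA : C ≤ A) (hA : ∀ x ∈ A, a⁻¹ * x * a ∈ A)
    (hAA : ∀ x ∈ A, ∀ y ∈ A, ⁅x, y⁆ ∈ C) (m : ℕ) : NB_P A C a hA hAA m ≤ A := by
  rintro z ⟨x, hx, hz⟩
  have h1 : z⁻¹ * icom x a m ∈ C := QuotientGroup.eq.1 hz
  have h3 := NB_icom_mem A a hA x hx m
  have h2 := A.mul_mem h3 (A.inv_mem (hCA h1))
  have h4 : icom x a m * (z⁻¹ * icom x a m)⁻¹ = z := by group
  rwa [h4] at h2

/-- elements of `B` act trivially modulo `C` -/
theorem NB_conj_eq [C.Normal] (hAB : ∀ x ∈ A, ∀ y ∈ B, ⁅x, y⁆ ∈ C) (z b : G) (hz : z ∈ A)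
    (hb : b ∈ B) : QuotientGroup.mk' C (b * z * b⁻¹) = QuotientGroup.mk' C z := by
  change ((_ : G) : G ⧸ C) = ((_ : G) : G ⧸ C)
  rw [QuotientGroup.eq]
  have h1 := hAB z hz b hb
  have h2 : (b * z * b⁻¹)⁻¹ * z = z⁻¹ * ⁅z, b⁆ * (z⁻¹)⁻¹ := by
    simp only [commutatorElement_def]
    group
  rw [h2]
  exact Normal.conj_mem inferInstance _ h1 _

theorem NB_P_normal [C.Normal] [hAn : A.Normal] (hCA : C ≤ A) (hA : ∀ x ∈ A, a⁻¹ * x * a ∈ A)
    (hAA : ∀ x ∈ A, ∀ y ∈ A, ⁅x, y⁆ ∈ C) (hAB : ∀ x ∈ A, ∀ y ∈ B, ⁅x, y⁆ ∈ C)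
    (hsup : B ⊔ zpowers a = ⊤) (m : ℕ) : (NB_P A C a hA hAA m).Normal := by
  have hconjB : ∀ b ∈ B, ∀ z ∈ NB_P A C a hA hAA m, b * z * b⁻¹ ∈ NB_P A C a hA hAA m := by
    intro b hb z hz
    have hzA := NB_P_le A C a hCA hA hAA m hz
    obtain ⟨x, hx, h1⟩ := hz
    exact ⟨x, hx, by rw [NB_conj_eq A C B hAB z b hzA hb, h1]⟩
  have hconjA : ∀ z ∈ NB_P A C a hA hAA m, a * z * a⁻¹ ∈ NB_P A C a hA hAA m := by
    rintro z ⟨x, hx, h1⟩
    refine ⟨a * x * a⁻¹, hAn.conj_mem x hx a, ?_⟩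
    have h2 := NB_icom_conj x a a m
    rw [mul_inv_cancel_right] at h2
    rw [h2, map_mul, map_mul, map_mul, map_mul, h1]
  have hconjA' : ∀ z ∈ NB_P A C a hA hAA m, a⁻¹ * z * a ∈ NB_P A C a hA hAA m := by
    rintro z ⟨x, hx, h1⟩
    refine ⟨a⁻¹ * x * a, hA x hx, ?_⟩
    have h2 := NB_icom_conj x a a⁻¹ m
    rw [inv_mul_cancel, one_mul, inv_inv] at h2
    rw [h2, map_mul, map_mul, map_mul, map_mul, h1]
  have hB : B ≤ normalizer (NB_P A C a hA hAA m : Set G) := by
    intro b hb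
    rw [mem_normalizer_iff]
    intro h
    refine ⟨hconjB b hb h, fun h' => ?_⟩
    have := hconjB b⁻¹ (B.inv_mem hb) _ h'
    have e : b⁻¹ * (b * h * b⁻¹) * b⁻¹⁻¹ = h := by group
    rwa [e] at this
  have ha : a ∈ normalizer (NB_P A C a hA hAA m : Set G) := by
    rw [mem_normalizer_iff]
    intro h
    refine ⟨hconjA h, fun h' => ?_⟩
    have := hconjA' _ h'
    have e : a⁻¹ * (a * h * a⁻¹) * a = h := by group
    rwa [e] at this
  have htop : normalizer (NB_P A C a hA hAA m : Set G) = ⊤ := by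
    rw [eq_top_iff, ← hsup]
    exact sup_le hB ((zpowers_le).2 ha)
  exact normalizer_eq_top_iff.1 htop

theorem NB_P_comm [C.Normal] [hAn : A.Normal] (hCA : C ≤ A) (hA : ∀ x ∈ A, a⁻¹ * x * a ∈ A)
    (hAA : ∀ x ∈ A, ∀ y ∈ A, ⁅x, y⁆ ∈ C) (hAB : ∀ x ∈ A, ∀ y ∈ B, ⁅x, y⁆ ∈ C)
    (hsup : B ⊔ zpowers a = ⊤) (m : ℕ) :
    ⁅NB_P A C a hA hAA m, (⊤ : Subgroup G)⁆ ≤ NB_P A C a hA hAA (m + 1) := by
  haveI := NB_P_normal A C B a hCA hA hAA hAB hsup (m + 1)
  have hCP : ∀ c ∈ C, c ∈ NB_P A C a hA hAA (m + 1) := by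
    intro c hc
    refine ⟨1, A.one_mem, ?_⟩
    rw [NB_icom_one, map_one]
    exact (QuotientGroup.eq_one_iff c).2 hc
  rw [commutator_le]
  intro z hz g _
  let ψ := QuotientGroup.mk' (NB_P A C a hA hAA (m + 1))
  let D : Subgroup G := (centralizer ({ψ z} : Set _)).comap ψ
  have hmemD : ∀ g : G, g ∈ D ↔ ⁅z, g⁆ ∈ NB_P A C a hA hAA (m + 1) := by
    intro g
    have h1 : g ∈ D ↔ ψ z * ψ g = ψ g * ψ z := by
      simp only [D, mem_comap, mem_centralizer_singleton_iff]
      exact eq_comm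
    rw [h1, ← QuotientGroup.eq_one_iff]
    change _ ↔ ψ ⁅z, g⁆ = 1
    rw [map_commutatorElement, commutatorElement_eq_one_iff_mul_comm]
  have hB : B ≤ D := by
    intro b hb
    rw [hmemD]
    exact hCP _ (hAB z (NB_P_le A C a hCA hA hAA m hz) b hb)
  have ha : a ∈ D := by
    rw [hmemD]
    have hca : com z a ∈ NB_P A C a hA hAA (m + 1) := by
      obtain ⟨x, hx, h1⟩ := hz
      refine ⟨x, hx, ?_⟩
      change _ = QuotientGroup.mk' C (com (icom x a m) a)
      simp only [com, map_mul, map_inv] at h1 ⊢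
      rw [h1]
    have e : ⁅z, a⁆ = (z * a) * com z a * (z * a)⁻¹ := by
      simp only [commutatorElement_def, com]
      group
    rw [e]
    exact Normal.conj_mem inferInstance _ hca _
  have htop : D = ⊤ := by
    rw [eq_top_iff, ← hsup]
    exact sup_le hB ((zpowers_le).2 ha)
  rw [← hmemD, htop]
  exact mem_top g

/-- iterated commutator with the whole group -/
def NB_D (N : Subgroup G) : ℕ → Subgroup G
  | 0 => N
  | m + 1 => ⁅NB_D N m, (⊤ : Subgroup G)⁆

theorem NB_D_mono (N M : Subgroup G) (h : N ≤ M) (m : ℕ) : NB_D N m ≤ NB_D M m := by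
  induction m with
  | zero => exact h
  | succ m ih => exact commutator_mono ih le_rfl

theorem NB_D_add (N : Subgroup G) (m n : ℕ) : NB_D N (m + n) = NB_D (NB_D N m) n := by
  induction n with
  | zero => rfl
  | succ n ih =>
    change ⁅NB_D N (m + n), (⊤ : Subgroup G)⁆ = ⁅NB_D (NB_D N m) n, (⊤ : Subgroup G)⁆
    rw [ih]

theorem NB_D_le_P [C.Normal] [hAn : A.Normal] (hCA : C ≤ A) (hA : ∀ x ∈ A, a⁻¹ * x * a ∈ A)
    (hAA : ∀ x ∈ A, ∀ y ∈ A, ⁅x, y⁆ ∈ C) (hAB : ∀ x ∈ A, ∀ y ∈ B, ⁅x, y⁆ ∈ C)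
    (hsup : B ⊔ zpowers a = ⊤) (m : ℕ) : NB_D A m ≤ NB_P A C a hA hAA m := by
  induction m with
  | zero =>
    intro z hz
    exact ⟨z, hz, rfl⟩
  | succ m ih =>
    exact (commutator_mono ih le_rfl).trans (NB_P_comm A C B a hCA hA hAA hAB hsup m)

theorem NB_step [C.Normal] [hAn : A.Normal] (hCA : C ≤ A) (hfg : A.FG)
    (hAB : ∀ x ∈ A, ∀ y ∈ B, ⁅x, y⁆ ∈ C) (hAleB : A ≤ B)
    (hsup : B ⊔ zpowers a = ⊤) (hE : EngelOn A a) : ∃ m, NB_D A m ≤ C := by
  classical
  have hA : ∀ x ∈ A, a⁻¹ * x * a ∈ A := by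
    intro x hx
    have := hAn.conj_mem x hx a⁻¹
    rwa [inv_inv] at this
  have hAA : ∀ x ∈ A, ∀ y ∈ A, ⁅x, y⁆ ∈ C := fun x hx y hy => hAB x hx y (hAleB hy)
  obtain ⟨S, hS⟩ := hfg
  have hSA : ∀ s ∈ S, s ∈ A := fun s hs => by
    rw [← hS]
    exact subset_closure hs
  choose! k hk using fun s (hs : s ∈ A) => hE s hs
  let K := S.sup k
  have hK : ∀ s ∈ S, icom s a K = 1 := by
    intro s hs
    have h1 : k s ≤ K := Finset.le_sup hs
    obtain ⟨r, hr⟩ := Nat.exists_eq_add_of_le h1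
    rw [hr, NB_icom_zero_add, hk s (hSA s hs), NB_icom_one]
  have hall : ∀ x ∈ A, QuotientGroup.mk' C (icom x a K) = 1 := by
    intro x hx
    rw [← hS] at hx
    have : x ∈ A ∧ QuotientGroup.mk' C (icom x a K) = 1 := by
      refine closure_induction (p := fun x _ => x ∈ A ∧ QuotientGroup.mk' C (icom x a K) = 1)
        ?_ ?_ ?_ ?_ hx
      · intro s hs
        exact ⟨hSA s hs, by rw [hK s hs, map_one]⟩
      · exact ⟨A.one_mem, by rw [NB_icom_one, map_one]⟩
      · rintro x y _ _ ⟨hx, h1⟩ ⟨hy, h2⟩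
        exact ⟨A.mul_mem hx hy, by rw [NB_icom_mul A C a hA hAA x y hx hy, h1, h2, one_mul]⟩
      · rintro x _ ⟨hx, h1⟩
        refine ⟨A.inv_mem hx, ?_⟩
        have h2 := NB_icom_mul A C a hA hAA x⁻¹ x (A.inv_mem hx) hx K
        rw [inv_mul_cancel, NB_icom_one, map_one, h1, mul_one] at h2
        exact h2.symm
    exact this.2
  refine ⟨K, ?_⟩
  intro z hz
  obtain ⟨x, hx, h1⟩ := NB_D_le_P A C B a hCA hA hAA hAB hsup K hz
  rw [hall x hx] at h1
  exact (QuotientGroup.eq_one_iff z).1 h1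

theorem NB_core [hBn : B.Normal] (hfg : B.FG) (hnil : Group.IsNilpotent B)
    (hsup : B ⊔ zpowers a = ⊤) (hE : EngelOn B a) : Group.IsNilpotent G := by
  have hmax := Pool.Agent.helper14.FA.maxCond_of_nilpotent B ((Group.fg_iff_subgroup_fg B).2 hfg)
  obtain ⟨c, hc⟩ := (isNilpotent_iff_lowerCentralSeries B).1 hnil
  have hsub : ∀ A : Subgroup G, A ≤ B → A.FG := by
    intro A hA
    have h1 := hmax (A.subgroupOf B)
    have h2 : (A.subgroupOf B).map B.subtype = A := by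
      rw [subgroupOf_map_subtype, inf_eq_left.2 hA]
    rw [← h2]
    obtain ⟨S, hS⟩ := h1
    classical
    refine ⟨S.image B.subtype, ?_⟩
    rw [Finset.coe_image, ← MonoidHom.map_closure, hS]
  have hstep : ∀ i, ∃ m, NB_D B m ≤ B.lowerCentralSeries i := by
    intro i
    induction i with
    | zero => exact ⟨0, le_rfl⟩
    | succ i ih =>
      obtain ⟨m, hm⟩ := ih
      obtain ⟨m', hm'⟩ := NB_step (B.lowerCentralSeries i) (B.lowerCentralSeries (i + 1)) B a
        (B.lowerCentralSeries_antitone (Nat.le_succ i))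
        (hsub _ (lowerCentralSeries_le_self B i))
        (fun x hx y hy => commutator_mem_commutator hx hy)
        (lowerCentralSeries_le_self B i) hsup
        (fun x hx => hE x (lowerCentralSeries_le_self B i hx))
      refine ⟨m + m', ?_⟩
      rw [NB_D_add]
      exact (NB_D_mono _ _ hm m').trans hm'
  obtain ⟨m, hm⟩ := hstep c
  rw [hc, le_bot_iff] at hm
  rw [Subgroup.nilpotent_iff_lowerCentralSeries]
  have hle : ∀ k, (⊤ : Subgroup G).lowerCentralSeries (k + 1) ≤ NB_D B k := by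
    intro k
    induction k with
    | zero =>
      rw [Subgroup.lowerCentralSeries_succ, Subgroup.lowerCentralSeries_zero]
      change ⁅(⊤ : Subgroup G), (⊤ : Subgroup G)⁆ ≤ B
      -- `G / B` is cyclic, so abelian
      rw [commutator_le]
      intro g _ h _
      have hform : ∀ g : G, ∃ j : ℤ, QuotientGroup.mk' B g = QuotientGroup.mk' B a ^ j := by
        intro g
        have hg : g ∈ B ⊔ zpowers a := by
          rw [hsup]
          exact mem_top g
        rw [← SetLike.mem_coe, normal_mul] at hg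
        obtain ⟨b, hb, t, ht, rfl⟩ := hg
        obtain ⟨j, rfl⟩ := mem_zpowers_iff.1 ht
        refine ⟨j, ?_⟩
        change QuotientGroup.mk' B (b * a ^ j) = _
        rw [map_mul, map_zpow]
        have : QuotientGroup.mk' B b = 1 := (QuotientGroup.eq_one_iff b).2 hb
        rw [this, one_mul]
      obtain ⟨i, hi⟩ := hform g
      obtain ⟨j, hj⟩ := hform h
      rw [← QuotientGroup.eq_one_iff]
      change QuotientGroup.mk' B ⁅g, h⁆ = 1
      rw [map_commutatorElement, hi, hj, commutatorElement_eq_one_iff_mul_comm, ← zpow_add,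
        ← zpow_add, add_comm]
    | succ k ih =>
      rw [Subgroup.lowerCentralSeries_succ]
      exact commutator_mono ih le_rfl
  exact ⟨m + 1, le_bot_iff.1 ((hle m).trans hm.le)⟩

end core

theorem NB : NB_stmt.{u} := by
  intro T _ B a hfg hnil h1 h2 hE
  have hBH : B ≤ B ⊔ zpowers a := le_sup_left
  have haH : a ∈ B ⊔ zpowers a := (le_sup_right : zpowers a ≤ B ⊔ zpowers a) (mem_zpowers a)
  have ha : a ∈ normalizer (B : Set T) := by
    rw [mem_normalizer_iff]
    intro h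
    refine ⟨h2 h, fun h' => ?_⟩
    have := h1 _ h'
    have e : a⁻¹ * (a * h * a⁻¹) * a = h := by group
    rwa [e] at this
  have hnorm : B ⊔ zpowers a ≤ normalizer (B : Set T) :=
    sup_le le_normalizer ((zpowers_le).2 ha)
  haveI : (B.subgroupOf (B ⊔ zpowers a)).Normal := normal_subgroupOf_of_le_normalizer hnorm
  let e := subgroupOfEquivOfLe hBH
  refine NB_core (B.subgroupOf (B ⊔ zpowers a)) ⟨a, haH⟩ ?_ ?_ ?_ ?_
  · rw [← Group.fg_iff_subgroup_fg]
    haveI := (Group.fg_iff_subgroup_fg B).2 hfg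
    exact Group.fg_of_surjective (f := e.symm.toMonoidHom) e.symm.surjective
  · exact (Group.isNilpotent_congr e).2 hnil
  · rw [← map_subtype_inj, Subgroup.map_sup, subgroupOf_map_subtype, inf_eq_left.2 hBH,
      MonoidHom.map_zpowers, ← MonoidHom.range_eq_map, subtype_range]
    rfl
  · intro x hx
    obtain ⟨n, hn⟩ := hE x.1 (mem_subgroupOf.1 hx)
    refine ⟨n, ?_⟩
    apply Subtype.ext
    have := NB_icom_map (B ⊔ zpowers a : Subgroup T).subtype x ⟨a, haH⟩ n
    rw [coe_one]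
    rw [← hn]
    exact this

end Pool.Agent.helper80.EN
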